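import Pool.Agent.Helper5.BEC.St.F1

/-! MP_436ed3_co: the Bollobás–Eldridge–Catlin conjecture holds asymptotically when both degree
bounds are at least `C log n`. -/

set_option autoImplicit false

namespace Pool.Agent.Results.MP_436ed3_co.AsymptoticPacking

theorem result (ε : ℝ) (hε : 0 < ε) :
    ∃ C : ℝ, ∀ (V : Type) [Fintype V] (G₁ G₂ : SimpleGraph V) (D₁ D₂ : ℝ),
      (∀ v, ((G₁.neighborSet v).ncard : ℝ) ≤ D₁) → (∀ v, ((G₂.neighborSet v).ncard : ℝ) ≤ D₂) →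
      C * Real.log (Fintype.card V) ≤ D₁ → C * Real.log (Fintype.card V) ≤ D₂ →
      D₁ * D₂ ≤ (1 - ε) * Fintype.card V →
      ∃ τ : Equiv.Perm V, ∀ u v, G₁.Adj u v → ¬ G₂.Adj (τ u) (τ v) :=
  Pool.Agent.Helper5.BEC.bec ε hε

end Pool.Agent.Results.MP_436ed3_co.AsymptoticPacking
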