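import Pool.Agent.Helper5.AVD.Prob

/-!
# Project BEC (MP_436ed3_co): definitions for the nibble

`A`, `B` are the two graphs on `Fin n` (neighbourhood systems), `A.N v` the neighbourhood of a
vertex in the first graph, `B.N y` the neighbourhood of a position in the second graph.
An outcome `ω : Fin n → Option (Fin n)` of a round says that `u` picks `z` (`ω u = some z`) or
nothing (`ω u = none`).
-/

set_option autoImplicit false

namespace Pool.Agent.Helper5.BEC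

open Finset Pool.Agent.Helper61.LE

/-- A graph on `Fin n` as a neighbourhood system. -/
structure Nb (n : ℕ) where
  N : Fin n → Finset (Fin n)
  symm : ∀ u v, u ∈ N v → v ∈ N u
  irr : ∀ v, v ∉ N v

variable {n : ℕ}

/-- State of the nibble. `U`: vertices that never picked; `F`: positions that were never picked;
`P`: placed vertices, `σ` their positions; `K`: killed pairs; `w`: weights. -/
structure St (n : ℕ) where
  U : Finset (Fin n)
  F : Finset (Fin n)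
  P : Finset (Fin n)
  σ : Fin n → Fin n
  K : Finset (Fin n × Fin n)
  w : Fin n → Fin n → ℝ

/-- `ρ(v,y) = ∑_{u ∈ N₁(v)} w(u, N₂(y))` -/
def rho (A B : Nb n) (w : Fin n → Fin n → ℝ) (v y : Fin n) : ℝ :=
  ∑ u ∈ A.N v, ∑ z ∈ B.N y, w u z

/-- `κ(v,y) = ∑_{u ≠ v} w(u,y) + ρ(v,y)` -/
def kap (A B : Nb n) (w : Fin n → Fin n → ℝ) (v y : Fin n) : ℝ :=
  (∑ u ∈ univ.erase v, w u y) + rho A B w v y

/-- `u` is cancelled: it picks `z` and some smaller `u'` picks `z'` with `z' = z` or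
(`u' ∈ N₁(u)` and `z' ∈ N₂(z)`). -/
def canc (A B : Nb n) (ω : Fin n → Option (Fin n)) (u : Fin n) : Prop :=
  ∃ z, ω u = some z ∧ ∃ u' < u, ∃ z', ω u' = some z' ∧ (z' = z ∨ (u' ∈ A.N u ∧ z' ∈ B.N z))

/-- no vertex of `N₁(v)` picks in `N₂(y)` -/
def nok (A B : Nb n) (ω : Fin n → Option (Fin n)) (v y : Fin n) : Prop :=
  ∀ u ∈ A.N v, ∀ z ∈ B.N y, ω u ≠ some z

open Classical in
/-- The next state after a round with outcome `ω`. -/
noncomputable def next (A B : Nb n) (δ : ℝ) (S : St n) (ω : Fin n → Option (Fin n)) : St n where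
  U := S.U.filter (fun u => ω u = none)
  F := S.F.filter (fun z => ∀ u, ω u ≠ some z)
  P := S.P ∪ univ.filter (fun u => (∃ z, ω u = some z) ∧ ¬ canc A B ω u)
  σ := fun u => (ω u).getD (S.σ u)
  K := S.K ∪ univ.filter (fun p => ¬ nok A B ω p.1 p.2)
  w := fun v y => if ω v = none ∧ (∀ u, ω u ≠ some y) ∧ nok A B ω v y then
    S.w v y * (1 + δ * kap A B S.w v y) else 0

open Classical in
/-- candidates for a swap of the leftover pair `(v,y)` -/
noncomputable def cand (S : St n) (v y : Fin n) : Finset (Fin n) :=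
  S.P.filter fun u => (v, S.σ u) ∉ S.K ∧ (u, y) ∉ S.K

open Classical in
/-- Invariants of the nibble. -/
structure Inv (A B : Nb n) (D1 D2 W γ a l p q : ℝ) (S : St n) : Prop where
  disj : Disjoint S.P S.U
  inj : Set.InjOn S.σ (S.P : Set (Fin n))
  notF : ∀ u ∈ S.P, S.σ u ∉ S.F
  killed : ∀ u ∈ S.P, ∀ v ∈ A.N u, ∀ z ∈ B.N (S.σ u), (v, z) ∈ S.K
  valid : ∀ u ∈ S.P, ∀ v ∈ S.P, v ∈ A.N u → S.σ v ∉ B.N (S.σ u)
  w0 : ∀ u z, 0 ≤ S.w u z
  wU : ∀ u z, u ∉ S.U → S.w u z = 0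
  wF : ∀ u z, z ∉ S.F → S.w u z = 0
  wK : ∀ u z, (u, z) ∈ S.K → S.w u z = 0
  wW : ∀ u z, S.w u z ≤ W / n
  row : ∀ u ∈ S.U, |∑ z, S.w u z - 1| ≤ γ
  col : ∀ z ∈ S.F, |∑ u, S.w u z - 1| ≤ γ
  aU : ∀ v, (#(A.N v ∩ S.U) : ℝ) ≤ a * D1
  aF : ∀ y, (#(B.N y ∩ S.F) : ℝ) ≤ a * D2
  aN : (#S.U : ℝ) ≤ a * n
  lU : ∀ v, (#(A.N v \ (S.U ∪ S.P)) : ℝ) ≤ l * D1
  lF : ∀ y, (#(B.N y \ (S.F ∪ S.P.image S.σ)) : ℝ) ≤ l * D2
  lN : (#(univ \ (S.U ∪ S.P)) : ℝ) ≤ l * n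
  pz : ∀ v, (#(univ.filter fun z => (v, z) ∈ S.K) : ℝ) ≤ p * n
  pu : ∀ y, (#(univ.filter fun u => (u, y) ∈ S.K) : ℝ) ≤ p * n
  pN : (1 - p) * n ≤ #S.U
  cnd : ∀ v y, q * n ≤ #(cand S v y)

/-- Standing assumptions on the degree bounds and on one round. `ρ` bounds `ρ(v,y)`. -/
structure Num (n : ℕ) (ε D1 D2 δ K0 W γ a ρ : ℝ) : Prop where
  n1 : 1 ≤ n
  ε0 : 0 < ε
  ε1 : ε ≤ 1 / 2
  hD1 : 1 ≤ D1
  hD2 : 1 ≤ D2
  hDD : D1 * D2 ≤ (1 - ε) * n
  δ0 : 0 < δ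
  δ1 : δ ≤ 1 / 100
  K0' : 2 ≤ K0
  δK : δ * K0 ≤ 1 / 100
  W1 : 1 ≤ W
  Wn : W / n ≤ δ
  γ0 : 0 ≤ γ
  γ1 : γ ≤ 1 / 50
  a0 : 0 ≤ a
  a1 : a ≤ 11 / 10
  hρ : ρ = (1 - ε) * a ^ 2 * W
  hκ : 1 + γ + ρ ≤ K0

/-- degree bounds -/
structure Deg (A B : Nb n) (D1 D2 : ℝ) : Prop where
  dA : ∀ v, (#(A.N v) : ℝ) ≤ D1
  dB : ∀ y, (#(B.N y) : ℝ) ≤ D2

open Classical in
/-- the weight of row `v` after the round, if `v` picks nothing -/
noncomputable def rowv (A B : Nb n) (δ : ℝ) (w : Fin n → Fin n → ℝ)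
    (ω : Fin n → Option (Fin n)) (v : Fin n) : ℝ :=
  ∑ z, if (∀ u, u ≠ v → ω u ≠ some z) ∧ nok A B ω v z then w v z * (1 + δ * kap A B w v z) else 0

open Classical in
/-- the weight of column `y` after the round, if `y` is not picked -/
noncomputable def colv (A B : Nb n) (δ : ℝ) (w : Fin n → Fin n → ℝ)
    (ω : Fin n → Option (Fin n)) (y : Fin n) : ℝ :=
  ∑ v, if ω v = none ∧ nok A B ω v y then w v y * (1 + δ * kap A B w v y) else 0

open Classical in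
/-- number of vertices of `X` that pick something -/
noncomputable def pickers (ω : Fin n → Option (Fin n)) (X : Finset (Fin n)) : ℕ :=
  #(X.filter fun u => ω u ≠ none)

open Classical in
/-- number of positions of `Y` that are picked -/
noncomputable def picked (ω : Fin n → Option (Fin n)) (Y : Finset (Fin n)) : ℕ :=
  #(Y.filter fun z => ∃ u, ω u = some z)

open Classical in
/-- number of vertices that pick in `Y` -/
noncomputable def pickin (ω : Fin n → Option (Fin n)) (Y : Finset (Fin n)) : ℕ :=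
  #(univ.filter fun u => ∃ z ∈ Y, ω u = some z)

open Classical in
/-- number of cancelled vertices in `X` -/
noncomputable def cancU (A B : Nb n) (ω : Fin n → Option (Fin n)) (X : Finset (Fin n)) : ℕ :=
  #(X.filter fun u => canc A B ω u)

open Classical in
/-- number of cancelled vertices that pick in `Y` -/
noncomputable def cancF (A B : Nb n) (ω : Fin n → Option (Fin n)) (Y : Finset (Fin n)) : ℕ :=
  #(univ.filter fun u => canc A B ω u ∧ ∃ z ∈ Y, ω u = some z)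

open Classical in
/-- upper bound for the number of candidates of `(v,y)` that are lost in the round -/
noncomputable def kills (A B : Nb n) (S : St n) (ω : Fin n → Option (Fin n)) (v y : Fin n) : ℝ :=
  ∑ u, ∑ z, if ω u = some z then
    ((if u ∈ A.N v then (#((cand S v y).filter fun x => S.σ x ∈ B.N z) : ℝ) else 0) +
      (if z ∈ B.N y then (#(cand S v y ∩ A.N u) : ℝ) else 0)) else 0

open Classical in
/-- number of vertices `u` picking some `z` with `(v,z)`, `(u,y)` not killed -/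
noncomputable def news (S : St n) (ω : Fin n → Option (Fin n)) (v y : Fin n) : ℕ :=
  #(univ.filter fun u => ∃ z, ω u = some z ∧ (v, z) ∉ S.K ∧ (u, y) ∉ S.K)

/-- Good outcomes of a round; `ph` says that we are in the first phase. -/
structure Good (A B : Nb n) (D1 D2 δ K0 γ ρ : ℝ) (ph : Prop) (S : St n)
    (ω : Fin n → Option (Fin n)) : Prop where
  supp : ∀ u z, ω u = some z → 0 < S.w u z
  row : ∀ v ∈ S.U, |rowv A B δ S.w ω v - ∑ z, S.w v z| ≤ 2 * δ ^ 2 * K0 ^ 2 + δ ^ 3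
  col : ∀ y ∈ S.F, |colv A B δ S.w ω y - ∑ u, S.w u y| ≤
    3 * δ * γ + 10 * K0 ^ 2 * δ ^ 2 + δ ^ 3
  pU : ∀ v, δ * (1 - γ) * #(A.N v ∩ S.U) - δ ^ 3 * D1 ≤ pickers ω (A.N v ∩ S.U)
  pUn : δ * (1 - γ) * #S.U - δ ^ 3 * n ≤ pickers ω S.U
  pU' : ∀ v, (pickers ω (A.N v) : ℝ) ≤ 2 * δ * D1
  pUn' : (pickers ω univ : ℝ) ≤ 2 * δ * n
  pF : ∀ y, (δ * (1 - γ) - δ ^ 2) * #(B.N y ∩ S.F) - δ ^ 3 * D2 ≤ picked ω (B.N y ∩ S.F)
  pF' : ∀ y, (pickin ω (B.N y) : ℝ) ≤ 2 * δ * D2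
  cU : ∀ v, (cancU A B ω (A.N v) : ℝ) ≤ 20 * K0 * δ ^ 2 * D1
  cUn : (cancU A B ω univ : ℝ) ≤ 20 * K0 * δ ^ 2 * n
  cF : ∀ y, (cancF A B ω (B.N y) : ℝ) ≤ 20 * K0 * δ ^ 2 * D2
  kl : ∀ v y, kills A B S ω v y ≤ 2 * δ * ρ * #(cand S v y) + δ ^ 3 * n
  nw : ph → ∀ v y, (6 / 10) * δ * n - δ ^ 3 * n ≤ news S ω v y

/-- the distribution of the picks -/
noncomputable def mu (δ : ℝ) (w : Fin n → Fin n → ℝ) : Fin n → Option (Fin n) → ℝ :=
  fun u o => match o with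
    | none => 1 - δ * ∑ z, w u z
    | some z => δ * w u z

end Pool.Agent.Helper5.BEC
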